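import Mathlib

/-!
Games of length omega with level dependent move sets and taboo labels.
Basic notions for the inductive proof of Borel determinacy (Martin 1985, version with taboos).
-/

set_option autoImplicit false

open Function

namespace Pool.Agent.Lib.BorelDet

/-- the player who moves at level `n` -/
def turn (n : ℕ) : Bool := decide (n % 2 = 0)

theorem turn_succ (n : ℕ) : turn (n + 1) = !turn n := by
  unfold turn
  rcases Nat.mod_two_eq_zero_or_one n with h | h
  · have : (n + 1) % 2 = 1 := by omega
    simp [h, this]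
  · have : (n + 1) % 2 = 0 := by omega
    simp [h, this]

/-- two plays agree below level `n` -/
def Agree {M : ℕ → Type} (n : ℕ) (x y : ∀ i, M i) : Prop := ∀ i, i < n → x i = y i

theorem Agree.refl {M : ℕ → Type} (n : ℕ) (x : ∀ i, M i) : Agree n x x := fun _ _ => rfl

theorem Agree.symm {M : ℕ → Type} {n : ℕ} {x y : ∀ i, M i} (h : Agree n x y) : Agree n y x :=
  fun i hi => (h i hi).symm

theorem Agree.trans {M : ℕ → Type} {n : ℕ} {x y z : ∀ i, M i} (h : Agree n x y)
    (h' : Agree n y z) : Agree n x z := fun i hi => (h i hi).trans (h' i hi)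

theorem Agree.mono {M : ℕ → Type} {m n : ℕ} {x y : ∀ i, M i} (h : Agree n x y) (hm : m ≤ n) :
    Agree m x y := fun i hi => h i (lt_of_lt_of_le hi hm)

theorem agree_update {M : ℕ → Type} (n : ℕ) (x : ∀ i, M i) (a : M n) :
    Agree n (update x n a) x := fun i hi => update_of_ne (ne_of_lt hi) _ _

theorem Agree.update {M : ℕ → Type} {n : ℕ} {x y : ∀ i, M i} (h : Agree n x y) (a : M n) :
    Agree (n + 1) (update x n a) (update y n a) := by
  intro i hi
  rcases Nat.lt_succ_iff_lt_or_eq.1 hi with hi | rfl
  · rw [update_of_ne (ne_of_lt hi), update_of_ne (ne_of_lt hi)]; exact h i hi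
  · simp

theorem Agree.succ {M : ℕ → Type} {n : ℕ} {x y : ∀ i, M i} (h : Agree n x y) (h' : x n = y n) :
    Agree (n + 1) x y := by
  intro i hi
  rcases Nat.lt_succ_iff_lt_or_eq.1 hi with hi | rfl
  · exact h i hi
  · exact h'

/-- A game: moves at level `n` come from `M n`; a position may carry a label, the player who
has already won. -/
structure Game where
  M : ℕ → Type
  dflt : ∀ n, M n
  lab : ℕ → (∀ n, M n) → Option Bool
  lab_na : ∀ n x y, Agree n x y → lab n x = lab n y
  lab_sticky : ∀ n x b, lab n x = some b → lab (n + 1) x = some b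

abbrev Game.Play (G : Game) : Type := ∀ n, G.M n

theorem Game.lab_mono (G : Game) {m n : ℕ} (h : m ≤ n) {x : G.Play} {b : Bool}
    (hb : G.lab m x = some b) : G.lab n x = some b := by
  induction h with
  | refl => exact hb
  | step _ ih => exact G.lab_sticky _ _ _ ih

theorem Game.lab_none_mono (G : Game) {m n : ℕ} (h : m ≤ n) {x : G.Play}
    (hb : G.lab n x = none) : G.lab m x = none := by
  cases hm : G.lab m x with
  | none => rfl
  | some b => rw [G.lab_mono h hm] at hb; cases hb

theorem Game.lab_unique (G : Game) {m n : ℕ} {x : G.Play} {b c : Bool}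
    (hb : G.lab m x = some b) (hc : G.lab n x = some c) : b = c := by
  have h1 := G.lab_mono (le_max_left m n) hb
  have h2 := G.lab_mono (le_max_right m n) hc
  rw [h1] at h2
  exact Option.some.inj h2

/-- a strategy: a move for each level that depends only on the earlier moves -/
structure Strat (G : Game) where
  mv : ∀ n, G.Play → G.M n
  na : ∀ n x y, Agree n x y → mv n x = mv n y

/-- the play `x` follows `σ` at level `n`, unless the move of `σ` loses at once -/
def ConsAt {G : Game} (b : Bool) (σ : Strat G) (x : G.Play) (n : ℕ) : Prop :=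
  turn n = b → x n = σ.mv n x ∨ G.lab (n + 1) (update x n (σ.mv n x)) = some (!b)

def Cons {G : Game} (b : Bool) (σ : Strat G) (x : G.Play) : Prop := ∀ n, ConsAt b σ x n

/-- the play never gets a label -/
def Unl {G : Game} (x : G.Play) : Prop := ∀ n, G.lab n x = none

def Win {G : Game} (b : Bool) (A : Set G.Play) (x : G.Play) : Prop :=
  (∃ n, G.lab n x = some b) ∨ (Unl x ∧ (x ∈ A ↔ b = true))

def Det (G : Game) (A : Set G.Play) : Prop :=
  ∃ (b : Bool) (σ : Strat G), ∀ x, Cons b σ x → Win b A x

/-- open relative to the unlabelled plays -/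
def OpenU (G : Game) (A : Set G.Play) : Prop :=
  ∀ x, Unl x → x ∈ A → ∃ n, ∀ y, Unl y → Agree n x y → y ∈ A

/-- strategies agree below level `n` -/
def SAgree {G : Game} (n : ℕ) (σ τ : Strat G) : Prop := ∀ m, m < n → σ.mv m = τ.mv m

/-- a `k`-covering of `G` by `H` -/
structure Cover (k : ℕ) (H G : Game) where
  pr : ∀ n, H.M n → G.M n
  bij : ∀ n, n < k → Bijective (pr n)
  lab_eq : ∀ n, n ≤ k → ∀ x : H.Play, H.lab n x = G.lab n (fun i => pr i (x i))
  lab_none : ∀ n (x : H.Play), H.lab n x = none → G.lab n (fun i => pr i (x i)) = none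
  phi : Bool → Strat H → Strat G
  phi_loc : ∀ b n σ τ, SAgree n σ τ → SAgree n (phi b σ) (phi b τ)
  phi_low : ∀ b σ n, n < k → ∀ x : H.Play,
    (phi b σ).mv n (fun i => pr i (x i)) = pr n (σ.mv n x)
  lift : ∀ b σ (x : G.Play), Cons b (phi b σ) x →
    ∃ y : H.Play, Cons b σ y ∧ (fun i => pr i (y i)) = x ∧
      ∀ n, H.lab n y = some b → G.lab n x = some b

def Cover.proj {k : ℕ} {H G : Game} (c : Cover k H G) (x : H.Play) : G.Play :=
  fun i => c.pr i (x i)

theorem Cover.proj_agree {k : ℕ} {H G : Game} (c : Cover k H G) {n : ℕ} {x y : H.Play}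
    (h : Agree n x y) : Agree n (c.proj x) (c.proj y) := fun i hi => by
  simp only [Cover.proj, h i hi]

theorem Cover.unl {k : ℕ} {H G : Game} (c : Cover k H G) {x : H.Play} (h : Unl x) :
    Unl (c.proj x) := fun n => c.lab_none n x (h n)

theorem Cover.openU {k : ℕ} {H G : Game} (c : Cover k H G) {A : Set G.Play} (h : OpenU G A) :
    OpenU H (c.proj ⁻¹' A) := by
  intro x hx hA
  obtain ⟨n, hn⟩ := h _ (c.unl hx) hA
  exact ⟨n, fun y hy hxy => hn _ (c.unl hy) (c.proj_agree hxy)⟩

theorem Cover.det {k : ℕ} {H G : Game} (c : Cover k H G) {A : Set G.Play}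
    (h : Det H (c.proj ⁻¹' A)) : Det G A := by
  obtain ⟨b, σ, hσ⟩ := h
  refine ⟨b, c.phi b σ, fun x hx => ?_⟩
  obtain ⟨y, hy, hyx, hg⟩ := c.lift b σ x hx
  rcases hσ y hy with ⟨n, hn⟩ | ⟨hu, hA⟩
  · exact Or.inl ⟨n, hg n hn⟩
  · refine Or.inr ⟨?_, ?_⟩
    · have := c.unl hu
      rwa [show c.proj y = x from hyx] at this
    · rw [← hA, Set.mem_preimage, show c.proj y = x from hyx]

/-- composition of coverings -/
def Cover.comp {k : ℕ} {K H G : Game} (d : Cover k K H) (c : Cover k H G) : Cover k K G where
  pr n a := c.pr n (d.pr n a)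
  bij n hn := (c.bij n hn).comp (d.bij n hn)
  lab_eq n hn x := by rw [d.lab_eq n hn, c.lab_eq n hn]
  lab_none n x h := c.lab_none n _ (d.lab_none n x h)
  phi b σ := c.phi b (d.phi b σ)
  phi_loc b n σ τ h := c.phi_loc b n _ _ (d.phi_loc b n σ τ h)
  phi_low b σ n hn x := by
    rw [c.phi_low b _ n hn (fun i => d.pr i (x i)), d.phi_low b σ n hn x]
  lift b σ x hx := by
    obtain ⟨y, hy, hyx, hg⟩ := c.lift b _ x hx
    obtain ⟨z, hz, hzy, hg'⟩ := d.lift b σ y hy
    refine ⟨z, hz, ?_, fun n hn => hg n (hg' n hn)⟩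
    rw [← hyx, ← hzy]

/-- a `k'`-covering is a `k`-covering for `k ≤ k'` -/
def Cover.weaken {k k' : ℕ} {H G : Game} (c : Cover k' H G) (h : k ≤ k') : Cover k H G where
  pr := c.pr
  bij n hn := c.bij n (lt_of_lt_of_le hn h)
  lab_eq n hn := c.lab_eq n (hn.trans h)
  lab_none := c.lab_none
  phi := c.phi
  phi_loc := c.phi_loc
  phi_low b σ n hn := c.phi_low b σ n (lt_of_lt_of_le hn h)
  lift := c.lift

/-! ### Gale-Stewart -/

/-- player `b` wins from the position given by the first `n` moves of `x` -/
def HasWin {G : Game} (b : Bool) (A : Set G.Play) (n : ℕ) (x : G.Play) : Prop :=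
  ∃ σ : Strat G, ∀ y, Agree n x y → (∀ m, n ≤ m → ConsAt b σ y m) → Win b A y

theorem HasWin.congr {G : Game} {b : Bool} {A : Set G.Play} {n : ℕ} {x x' : G.Play}
    (h : HasWin b A n x) (hx : Agree n x x') : HasWin b A n x' := by
  obtain ⟨σ, hσ⟩ := h
  exact ⟨σ, fun y hy => hσ y (hx.trans hy)⟩

def dfltStrat (G : Game) : Strat G where
  mv n _ := G.dflt n
  na _ _ _ _ := rfl

theorem hasWin_of_lab {G : Game} {b : Bool} {A : Set G.Play} {n : ℕ} {x : G.Play}
    (h : G.lab n x = some b) : HasWin b A n x :=
  ⟨dfltStrat G, fun y hy _ => Or.inl ⟨n, by rw [← G.lab_na n x y hy]; exact h⟩⟩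

theorem not_hasWin_of_lab {G : Game} {b : Bool} {A : Set G.Play} {n : ℕ} {x : G.Play}
    (h : G.lab n x = some (!b)) : ¬ HasWin b A n x := by
  rintro ⟨σ, hσ⟩
  have hw := hσ x (Agree.refl _ _) (fun m hm _ => Or.inr (by
    have h1 : G.lab n (update x m (σ.mv m x)) = some (!b) := by
      rw [G.lab_na n _ x ((agree_update m x _).mono hm)]; exact h
    exact G.lab_mono (by omega) h1))
  rcases hw with ⟨m, hm⟩ | ⟨hu, _⟩
  · have := G.lab_unique hm h
    cases b <;> simp at this
  · rw [hu n] at h; cases h

theorem hasWin_own {G : Game} {b : Bool} {A : Set G.Play} {n : ℕ} {x : G.Play}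
    (ht : turn n = b) (a : G.M n) (h : HasWin b A (n + 1) (update x n a)) : HasWin b A n x := by
  classical
  have hl : G.lab (n + 1) (update x n a) ≠ some (!b) := fun hl => not_hasWin_of_lab hl h
  obtain ⟨σ, hσ⟩ := h
  let τ : Strat G :=
    { mv := update σ.mv n (fun _ => a)
      na := by
        intro m y z hyz
        by_cases hm : m = n
        · subst hm; simp
        · rw [update_of_ne hm]; exact σ.na m y z hyz }
  refine ⟨τ, fun y hy hc => ?_⟩
  have hn : τ.mv n y = a := by simp [τ]
  have hya : y n = a := by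
    rcases hc n le_rfl ht with h1 | h1
    · rw [h1, hn]
    · rw [hn, ← G.lab_na _ _ _ (hy.update a)] at h1
      exact absurd h1 hl
  refine hσ y ?_ ?_
  · have h2 : Agree n (update x n a) y := (agree_update n x a).trans hy
    exact h2.succ (by simp [hya])
  · intro m hm
    have hmn : m ≠ n := by omega
    have h3 := hc m (by omega)
    have h4 : τ.mv m = σ.mv m := by simp only [τ]; rw [update_of_ne hmn]
    unfold ConsAt at h3 ⊢
    rwa [h4] at h3

theorem hasWin_opp {G : Game} {b : Bool} {A : Set G.Play} {n : ℕ} {x : G.Play}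
    (ht : turn n ≠ b) (h : ∀ a : G.M n, HasWin b A (n + 1) (update x n a)) : HasWin b A n x := by
  classical
  choose σ hσ using h
  let τ : Strat G :=
    { mv := fun m y => if n < m then (σ (y n)).mv m y else G.dflt m
      na := by
        intro m y z hyz
        by_cases hm : n < m
        · simp only [hm, if_true]
          rw [hyz n hm]
          exact (σ (z n)).na m y z hyz
        · simp only [hm, if_false] }
  refine ⟨τ, fun y hy hc => ?_⟩
  refine hσ (y n) y ?_ ?_
  · have h2 : Agree n (update x n (y n)) y := (agree_update n x _).trans hy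
    exact h2.succ (by simp)
  · intro m hm
    have h3 := hc m (by omega)
    have h4 : τ.mv m y = (σ (y n)).mv m y := by
      have : n < m := by omega
      simp only [τ, this, if_true]
    unfold ConsAt at h3 ⊢
    rwa [h4] at h3

/-- if `b` does not win from a position, the other player can keep it that way -/
theorem exists_strat_avoid {G : Game} (b : Bool) (A : Set G.Play) :
    ∃ σ : Strat G, ∀ n x, ¬ HasWin b A n x → ∀ y, Agree n x y →
      (∀ m, n ≤ m → ConsAt (!b) σ y m) → ∀ m, n ≤ m → ¬ HasWin b A m y := by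
  classical
  let P : ∀ m, G.Play → G.M m → Prop := fun m y a => ¬ HasWin b A (m + 1) (update y m a)
  let σ : Strat G :=
    { mv := fun m y => @Classical.epsilon _ ⟨G.dflt m⟩ (P m y)
      na := by
        intro m y z hyz
        have : P m y = P m z := by
          funext a
          exact propext ⟨fun h h' => h (h'.congr (hyz.update a).symm),
            fun h h' => h (h'.congr (hyz.update a))⟩
        rw [this] }
  refine ⟨σ, fun n x hx y hy hc m hm => ?_⟩
  induction hm with
  | refl => exact fun h => hx (h.congr hy.symm)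
  | @step m hm ih =>
    by_cases ht : turn m = b
    · intro h
      exact ih (hasWin_own ht (y m) (by simpa using h))
    · have hex : ∃ a, P m y a := by
        by_contra hne
        push Not at hne
        exact ih (hasWin_opp ht (fun a => by simpa [P] using hne a))
      have hP : P m y (σ.mv m y) := @Classical.epsilon_spec _ (P m y) hex
      have ht' : turn m = !b := by cases b <;> simp_all
      rcases hc m hm ht' with h1 | h1
      · rw [← h1] at hP
        simpa [P] using hP
      · exact absurd (hasWin_of_lab (by simpa using h1)) hP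

theorem det_of_level {G : Game} {A : Set G.Play} (n : ℕ)
    (h : ∀ x, ∃ b, HasWin b A n x) : Det G A := by
  have key : ∀ n, (∀ x, ∃ b, HasWin b A n x) → ∀ x, ∃ b, HasWin b A 0 x := by
    intro n
    induction n with
    | zero => exact fun h => h
    | succ n ih =>
      intro h
      refine ih (fun x => ?_)
      by_cases h1 : ∃ a, HasWin (turn n) A (n + 1) (update x n a)
      · obtain ⟨a, ha⟩ := h1
        exact ⟨_, hasWin_own rfl a ha⟩
      · push Not at h1
        refine ⟨!turn n, hasWin_opp (by simp) (fun a => ?_)⟩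
        obtain ⟨b, hb⟩ := h (update x n a)
        by_cases hbt : b = turn n
        · exact absurd (hbt ▸ hb) (h1 a)
        · have : b = !turn n := by cases b <;> cases h2 : turn n <;> simp_all
          exact this ▸ hb
  obtain ⟨b, σ, hσ⟩ := key n h G.dflt
  exact ⟨b, σ, fun x hx => hσ x (fun i hi => absurd hi (Nat.not_lt_zero i)) (fun m _ => hx m)⟩

/-- membership in `A` of an unlabelled play is decided by the moves below level `n` -/
def DecidedAt (G : Game) (A : Set G.Play) (n : ℕ) : Prop :=
  ∀ x y : G.Play, Unl x → Unl y → Agree n x y → x ∈ A → y ∈ A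

theorem det_of_decidedAt {G : Game} {A : Set G.Play} {n : ℕ} (h : DecidedAt G A n) :
    Det G A := by
  classical
  refine det_of_level n (fun x => ?_)
  -- the favoured player
  obtain ⟨b, hb⟩ : ∃ b : Bool, ∀ y, Unl y → Agree n x y → (y ∈ A ↔ b = true) := by
    by_cases h1 : ∃ y, Unl y ∧ Agree n x y ∧ y ∈ A
    · obtain ⟨y, hy, hxy, hA⟩ := h1
      exact ⟨true, fun z hz hxz => by simpa using h y z hy hz (hxy.symm.trans hxz) hA⟩
    · push Not at h1
      exact ⟨false, fun z hz hxz => by simpa using h1 z hz hxz⟩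
  by_cases h2 : HasWin (!b) A n x
  · exact ⟨_, h2⟩
  · obtain ⟨σ, hσ⟩ := exists_strat_avoid (!b) A
    refine ⟨b, σ, fun y hy hc => ?_⟩
    have h3 := hσ n x h2 y hy (by simpa using hc)
    by_cases h4 : ∃ m, G.lab m y = some b
    · exact Or.inl h4
    · push Not at h4
      have hu : Unl y := by
        intro m
        cases hm : G.lab m y with
        | none => rfl
        | some c =>
          exfalso
          by_cases hcb : c = b
          · exact h4 m (hcb ▸ hm)
          · have hc' : c = !b := by cases b <;> cases c <;> simp_all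
            exact h3 (max n m) (le_max_left _ _)
              (hasWin_of_lab (G.lab_mono (le_max_right _ _) (hc' ▸ hm)))
      exact Or.inr ⟨hu, hb y hu hy⟩

end Pool.Agent.Lib.BorelDet
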