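import Pool.Agent.Lib.BorelDet.Basic

/-!
Inverse limits of coverings.
-/

set_option autoImplicit false

open Function

namespace Pool.Agent.Lib.BorelDet

theorem exists_thread (J : ℕ) : ∀ (X : ℕ → Type) (p : ∀ j, X (j + 1) → X j)
    (_ : ∀ j, J ≤ j → Surjective (p j)) (a : X J),
    ∃ t : ∀ j, X j, (∀ j, p j (t (j + 1)) = t j) ∧ t J = a := by
  induction J with
  | zero =>
    intro X p hp a
    refine ⟨fun j => Nat.rec a (fun j b => surjInv (hp j (Nat.zero_le j)) b) j, fun j => ?_, rfl⟩
    exact surjInv_eq (hp j (Nat.zero_le j)) _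
  | succ J ih =>
    intro X p hp a
    obtain ⟨t, ht, ha⟩ := ih (fun j => X (j + 1)) (fun j => p (j + 1))
      (fun j hj => hp (j + 1) (by omega)) a
    refine ⟨fun j => Nat.casesOn j (p 0 (t 0)) t, fun j => ?_, ha⟩
    cases j with
    | zero => rfl
    | succ j => exact ht j

theorem thread_unique (J : ℕ) (X : ℕ → Type) (p : ∀ j, X (j + 1) → X j)
    (hp : ∀ j, J ≤ j → Injective (p j)) (t s : ∀ j, X j) (ht : ∀ j, p j (t (j + 1)) = t j)
    (hs : ∀ j, p j (s (j + 1)) = s j) (h : t J = s J) : t = s := by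
  have h1 : ∀ j, J ≤ j → t j = s j := by
    intro j hj
    induction hj with
    | refl => exact h
    | @step j hj ih => exact hp j hj (by rw [ht, hs, ih])
  have h2 : ∀ d j, j + d = J → t j = s j := by
    intro d
    induction d with
    | zero => intro j hj; exact h1 j (by omega)
    | succ d ih => intro j hj; rw [← ht, ← hs, ih (j + 1) (by omega)]
  funext j
  rcases le_total J j with hj | hj
  · exact h1 j hj
  · exact h2 (J - j) j (by omega)

theorem Strat.ext' {G : Game} {σ τ : Strat G} (h : σ.mv = τ.mv) : σ = τ := by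
  cases σ; cases τ; cases h; rfl

namespace Lim

variable {k : ℕ} {G : ℕ → Game} (c : ∀ j, Cover (k + j) (G (j + 1)) (G j))

def LM (n : ℕ) : Type := {t : ∀ j, (G j).M n // ∀ j, (c j).pr n (t (j + 1)) = t j}

theorem exists_LM {n j : ℕ} (h : n < k + j) (a : (G j).M n) : ∃ t : LM c n, t.1 j = a := by
  obtain ⟨t, ht, ha⟩ := exists_thread j (fun j => (G j).M n) (fun j => (c j).pr n)
    (fun i hi => ((c i).bij n (by omega)).2) a
  exact ⟨⟨t, ht⟩, ha⟩

theorem LM_ext {n j : ℕ} (h : n < k + j) {t s : LM c n} (hts : t.1 j = s.1 j) : t = s :=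
  Subtype.ext (thread_unique j (fun j => (G j).M n) (fun j => (c j).pr n)
    (fun i hi => ((c i).bij n (by omega)).1) t.1 s.1 t.2 s.2 hts)

def pi (j : ℕ) (x : ∀ n, LM c n) : (G j).Play := fun n => (x n).1 j

theorem proj_pi (j : ℕ) (x : ∀ n, LM c n) : (c j).proj (pi c (j + 1) x) = pi c j x :=
  funext fun n => (x n).2 j

theorem pi_agree (j : ℕ) {n : ℕ} {x y : ∀ n, LM c n} (h : Agree n x y) :
    Agree n (pi c j x) (pi c j y) := fun i hi => by simp only [pi, h i hi]

theorem lab_stable {n i j : ℕ} (hi : n ≤ k + i) (hij : i ≤ j) (x : ∀ n, LM c n) :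
    (G j).lab n (pi c j x) = (G i).lab n (pi c i x) := by
  induction hij with
  | refl => rfl
  | @step j hj ih =>
    have hj' : i ≤ j := hj
    rw [(c j).lab_eq n (by omega), ← ih, ← proj_pi c j x]; rfl

theorem lab_none_down {n i j : ℕ} (hij : i ≤ j) (x : ∀ n, LM c n)
    (h : (G j).lab n (pi c j x) = none) : (G i).lab n (pi c i x) = none := by
  induction hij with
  | refl => exact h
  | @step j hj ih =>
    apply ih
    rw [← proj_pi c j x]
    exact (c j).lab_none n _ h

noncomputable def game : Game where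
  M := LM c
  dflt n := Classical.choose (exists_LM c (show n < k + (n + 1) by omega) ((G (n + 1)).dflt n))
  lab n x := (G n).lab n (pi c n x)
  lab_na n x y h := (G n).lab_na n _ _ (pi_agree c n h)
  lab_sticky n x b h := by
    apply (G (n + 1)).lab_sticky
    rw [lab_stable c (show n ≤ k + n by omega) (Nat.le_succ n)]; exact h

theorem game_lab {n j : ℕ} (h : n ≤ k + j) (x : ∀ n, LM c n) :
    (game c).lab n x = (G j).lab n (pi c j x) := by
  show (G n).lab n (pi c n x) = _
  rcases le_total n j with hj | hj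
  · exact (lab_stable c (by omega) hj x).symm
  · exact lab_stable c h hj x

theorem game_lab_none {n : ℕ} (j : ℕ) (x : ∀ n, LM c n) (h : (game c).lab n x = none) :
    (G j).lab n (pi c j x) = none := by
  apply lab_none_down c (Nat.le_add_right j n) x
  rw [← game_lab c (by omega)]; exact h

theorem openU (j : ℕ) {A : Set (G j).Play} (h : OpenU (G j) A) :
    OpenU (game c) (pi c j ⁻¹' A) := by
  intro x hx hA
  obtain ⟨n, hn⟩ := h _ (fun m => game_lab_none c j x (hx m)) hA
  exact ⟨n, fun y hy hxy => hn _ (fun m => game_lab_none c j y (hy m)) (pi_agree c j hxy)⟩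

noncomputable def sec (j n : ℕ) (a : (G j).M n) : LM c n :=
  if h : n < k + j then Classical.choose (exists_LM c h a) else (game c).dflt n

theorem sec_spec {j n : ℕ} (h : n < k + j) (a : (G j).M n) : (sec c j n a).1 j = a := by
  unfold sec
  rw [dif_pos h]
  exact Classical.choose_spec (exists_LM c h a)

theorem sec_left {j n : ℕ} (h : n < k + j) (t : LM c n) : sec c j n (t.1 j) = t :=
  LM_ext c h (sec_spec c h _)

noncomputable def base (σ : Strat (game c)) (j : ℕ) : Strat (G j) where
  mv m y := (σ.mv m (fun i => sec c j i (y i))).1 j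
  na m y z h := by
    rw [σ.na m (fun i => sec c j i (y i)) (fun i => sec c j i (z i))
      (fun i hi => by simp only [h i hi])]

theorem base_pi (σ : Strat (game c)) {j n : ℕ} (h : n ≤ k + j) (x : ∀ n, LM c n) :
    (base c σ j).mv n (pi c j x) = (σ.mv n x).1 j := by
  have := σ.na n (fun i => sec c j i (pi c j x i)) x (fun i hi => sec_left c (by omega) (x i))
  exact congrArg (fun t : LM c n => t.1 j) this

noncomputable def S (b : Bool) (σ : Strat (game c)) : ℕ → ∀ j, Strat (G j)
  | 0, j => base c σ j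
  | d + 1, j => (c j).phi b (S b σ d (j + 1))

theorem S_agree (b : Bool) (σ : Strat (game c)) (d : ℕ) :
    ∀ j, SAgree (k + j + d) (S c b σ (d + 1) j) (S c b σ d j) := by
  induction d with
  | zero =>
    intro j n hn
    funext y
    let z : ∀ n, LM c n := fun i => sec c j i (y i)
    have h1 : Agree n y (pi c j z) := fun i hi => (sec_spec c (by omega) (y i)).symm
    rw [(S c b σ 1 j).na n y _ h1, (S c b σ 0 j).na n y _ h1]
    simp only [S]
    rw [base_pi c σ (by omega), ← proj_pi c j z]
    have := (c j).phi_low b (base c σ (j + 1)) n (by omega) (pi c (j + 1) z)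
    rw [base_pi c σ (by omega), (σ.mv n z).2 j] at this
    exact this
  | succ d ih =>
    intro j
    have := (c j).phi_loc b _ _ _ (ih (j + 1))
    intro n hn
    exact this n (by omega)

theorem S_stab (b : Bool) (σ : Strat (game c)) {d d' j n : ℕ} (hd : d ≤ d') (hn : n < k + j + d) :
    (S c b σ d' j).mv n = (S c b σ d j).mv n := by
  induction hd with
  | refl => rfl
  | @step d' hd ih =>
    have hd' : d ≤ d' := hd
    rw [← ih]; exact S_agree c b σ d' j n (by omega)

noncomputable def lev (b : Bool) (σ : Strat (game c)) (j : ℕ) : Strat (G j) where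
  mv n := (S c b σ (n + 1) j).mv n
  na n := (S c b σ (n + 1) j).na n

theorem phi_lev (b : Bool) (σ : Strat (game c)) (j : ℕ) :
    (c j).phi b (lev c b σ (j + 1)) = lev c b σ j := by
  apply Strat.ext'
  funext n
  have h1 : SAgree (n + 1) (lev c b σ (j + 1)) (S c b σ (n + 1) (j + 1)) := fun m hm =>
    (S_stab c b σ (show m + 1 ≤ n + 1 by omega) (by omega)).symm
  rw [(c j).phi_loc b _ _ _ h1 n (by omega)]
  exact S_stab c b σ (show n + 1 ≤ n + 2 by omega) (by omega)

theorem lev_pi (b : Bool) (σ : Strat (game c)) {j n : ℕ} (h : n < k + j) (x : ∀ n, LM c n) :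
    (lev c b σ j).mv n (pi c j x) = (σ.mv n x).1 j := by
  show (S c b σ (n + 1) j).mv n _ = _
  rw [S_stab c b σ (Nat.zero_le (n + 1)) (by omega)]
  exact base_pi c σ h.le x

theorem S_loc (b : Bool) (n : ℕ) (σ τ : Strat (game c)) (h : SAgree n σ τ) (d : ℕ) :
    ∀ j, SAgree n (S c b σ d j) (S c b τ d j) := by
  induction d with
  | zero =>
    intro j m hm
    funext y
    show (σ.mv m _).1 j = (τ.mv m _).1 j
    rw [h m hm]
  | succ d ih => intro j; exact (c j).phi_loc b n _ _ (ih (j + 1))

theorem pi_update (j n : ℕ) (x : ∀ n, LM c n) (a : LM c n) :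
    pi c j (update x n a) = update (pi c j x) n (a.1 j) := by
  funext i
  by_cases h : i = n
  · subst h; simp [pi]
  · simp [pi, update_of_ne h]

theorem lift (b : Bool) (σ : Strat (game c)) (x : (G 0).Play) (hx : Cons b (lev c b σ 0) x) :
    ∃ y : (game c).Play, Cons b σ y ∧ pi c 0 y = x ∧
      ∀ n, (game c).lab n y = some b → (G 0).lab n x = some b := by
  have step : ∀ j (z : {z : (G j).Play // Cons b (lev c b σ j) z}),
      ∃ w : {z : (G (j + 1)).Play // Cons b (lev c b σ (j + 1)) z},
        (c j).proj w.1 = z.1 ∧ ∀ n, (G (j + 1)).lab n w.1 = some b → (G j).lab n z.1 = some b := by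
    intro j z
    obtain ⟨w, hw, h1, h2⟩ := (c j).lift b (lev c b σ (j + 1)) z.1 (by rw [phi_lev]; exact z.2)
    exact ⟨⟨w, hw⟩, h1, h2⟩
  choose f hf using step
  let s : ∀ j, {z : (G j).Play // Cons b (lev c b σ j) z} := fun j =>
    Nat.rec ⟨x, hx⟩ (fun j z => f j z) j
  have hs : ∀ j, s (j + 1) = f j (s j) := fun j => rfl
  let y : ∀ n, LM c n := fun n => ⟨fun j => (s j).1 n, fun j => by
    have := congrFun (hf j (s j)).1 n
    rw [← hs] at this
    exact this⟩
  have hy : ∀ j, pi c j y = (s j).1 := fun j => rfl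
  refine ⟨y, fun n ht => ?_, rfl, fun n hn => ?_⟩
  · have h1 := (s (n + 1)).2 n ht
    have h0 : (lev c b σ (n + 1)).mv n (s (n + 1)).1 = (σ.mv n y).1 (n + 1) :=
      lev_pi c b σ (show n < k + (n + 1) by omega) y
    rw [h0] at h1
    rcases h1 with h1 | h1
    · exact Or.inl (LM_ext c (show n < k + (n + 1) by omega) h1)
    · right
      rw [game_lab c (show n + 1 ≤ k + (n + 1) by omega), ← h1]
      exact congrArg _ (pi_update c (n + 1) n y (σ.mv n y))
  · have h1 : ∀ j, (G j).lab n (s j).1 = some b → (G 0).lab n x = some b := by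
      intro j
      induction j with
      | zero => exact fun h => h
      | succ j ih => exact fun h => ih ((hf j (s j)).2 n h)
    exact h1 n hn

noncomputable def cover : Cover k (game c) (G 0) where
  pr n t := t.1 0
  bij n hn := ⟨fun t s h => LM_ext c (j := 0) hn h, fun a => exists_LM c (j := 0) hn a⟩
  lab_eq n hn x := game_lab c (j := 0) hn x
  lab_none n x h := game_lab_none c 0 x h
  phi b σ := lev c b σ 0
  phi_loc b n σ τ h m hm := S_loc c b n σ τ h (m + 1) 0 m hm
  phi_low b σ n hn x := lev_pi c b σ (j := 0) hn x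
  lift b σ x hx := lift c b σ x hx

end Lim

end Pool.Agent.Lib.BorelDet
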