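import Pool.Agent.Lib.BorelDet.Unravel
import Pool.Agent.Lib.BorelDet.Limit

/-!
Borel determinacy (Martin).
-/

set_option autoImplicit false

open Function

namespace Pool.Agent.Lib.BorelDet

variable {Z : Type} [TopologicalSpace Z]

/-- continuity on the unlabelled plays -/
def ContU (G : Game) (f : G.Play → Z) : Prop := ∀ O, IsOpen O → OpenU G (f ⁻¹' O)

theorem ContU.comp {k : ℕ} {H G : Game} (c : Cover k H G) {f : G.Play → Z} (hf : ContU G f) :
    ContU H (f ∘ c.proj) := fun O hO => c.openU (hf O hO)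

def Unravelable (C : Set Z) : Prop :=
  ∀ (G : Game) (f : G.Play → Z), ContU G f → ∀ k, ∃ (H : Game) (c : Cover k H G),
    OpenU H ((f ∘ c.proj) ⁻¹' C) ∧ OpenU H ((f ∘ c.proj) ⁻¹' C)ᶜ

theorem DecidedAt.openU {G : Game} {A : Set G.Play} {n : ℕ} (h : DecidedAt G A n) :
    OpenU G A ∧ OpenU G Aᶜ :=
  ⟨fun x hx hA => ⟨n, fun y hy hxy => h x y hx hy hxy hA⟩,
    fun x hx hA => ⟨n, fun y hy hxy hy' => hA (h y x hy hx hxy.symm hy')⟩⟩

theorem unravelable_open {C : Set Z} (hC : IsOpen C) : Unravelable C := by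
  intro G f hf k
  obtain ⟨H, c, hc⟩ := exists_cover_decided G k _ (hf C hC)
  exact ⟨H, c, hc.openU⟩

theorem Unravelable.compl {C : Set Z} (h : Unravelable C) : Unravelable Cᶜ := by
  intro G f hf k
  obtain ⟨H, c, h1, h2⟩ := h G f hf k
  exact ⟨H, c, h2, by simpa using h1⟩

theorem unravelable_iUnion {C : ℕ → Set Z} (h : ∀ i, Unravelable (C i)) :
    Unravelable (⋃ i, C i) := by
  intro G f hf k
  have step : ∀ (i : ℕ) (s : Σ H : Game, {f : H.Play → Z // ContU H f}),
      ∃ (H : Game) (c : Cover (k + i) H s.1), OpenU H ((s.2.1 ∘ c.proj) ⁻¹' C i) := by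
    intro i s
    obtain ⟨H, c, h1, -⟩ := h i s.1 s.2.1 s.2.2 (k + i)
    exact ⟨H, c, h1⟩
  choose H c hc using step
  let s : ℕ → Σ H : Game, {f : H.Play → Z // ContU H f} := fun j =>
    Nat.rec ⟨G, f, hf⟩ (fun j t => ⟨H j t, t.2.1 ∘ (c j t).proj, t.2.2.comp (c j t)⟩) j
  let d : ∀ j, Cover (k + j) (s (j + 1)).1 (s j).1 := fun j => c j (s j)
  have hcomm : ∀ j, (s j).2.1 ∘ Lim.pi (G := fun j => (s j).1) d j =
      f ∘ Lim.pi (G := fun j => (s j).1) d 0 := by
    intro j
    induction j with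
    | zero => rfl
    | succ j ih =>
      rw [← ih]
      funext x
      exact congrArg (s j).2.1 (Lim.proj_pi (G := fun j => (s j).1) d j x)
  have hopen : OpenU (Lim.game (G := fun j => (s j).1) d)
      ((f ∘ (Lim.cover (G := fun j => (s j).1) d).proj) ⁻¹' ⋃ i, C i) := by
    intro x hx hA
    obtain ⟨i, hi⟩ := Set.mem_iUnion.1 hA
    have h1 := Lim.openU (G := fun j => (s j).1) d (i + 1) (hc i (s i))
    have h2 : ∀ y, y ∈ Lim.pi (G := fun j => (s j).1) d (i + 1) ⁻¹'
        (((s i).2.1 ∘ (c i (s i)).proj) ⁻¹' C i) ↔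
        (f ∘ (Lim.cover (G := fun j => (s j).1) d).proj) y ∈ C i := by
      intro y
      have := congrFun (hcomm (i + 1)) y
      exact Iff.of_eq (congrArg (· ∈ C i) this)
    obtain ⟨n, hn⟩ := h1 x hx ((h2 x).2 hi)
    exact ⟨n, fun y hy hxy => Set.mem_iUnion.2 ⟨i, (h2 y).1 (hn y hy hxy)⟩⟩
  obtain ⟨K, e, he⟩ := exists_cover_decided _ k _ hopen
  exact ⟨K, e.comp (Lim.cover (G := fun j => (s j).1) d), he.openU⟩

theorem unravelable_borel {C : Set Z} (hC : @MeasurableSet Z (borel Z) C) : Unravelable C := by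
  induction C, hC using MeasurableSpace.generateFrom_induction with
  | hC t ht _ => exact unravelable_open ht
  | empty => exact unravelable_open isOpen_empty
  | compl t _ h => exact h.compl
  | iUnion s _ h => exact unravelable_iUnion h

/-- **Borel determinacy**: a game whose payoff set is the preimage of a Borel set under a map
that is continuous on the unlabelled plays is determined. -/
theorem borel_det (G : Game) (f : G.Play → Z) (hf : ContU G f) {C : Set Z}
    (hC : @MeasurableSet Z (borel Z) C) : Det G (f ⁻¹' C) := by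
  obtain ⟨H, c, h1, -⟩ := unravelable_borel hC G f hf 0
  obtain ⟨K, e, he⟩ := exists_cover_decided H 0 _ h1
  exact c.det (e.det (det_of_decidedAt he))

/-- building a play from a rule that depends only on the earlier moves -/
theorem exists_play {M : ℕ → Type} (F : ∀ n, (∀ i, M i) → M n)
    (hF : ∀ n x y, Agree n x y → F n x = F n y) (x0 : ∀ i, M i) :
    ∃ x : ∀ i, M i, ∀ n, x n = F n x := by
  let s : ℕ → ∀ i, M i := fun n => Nat.rec x0 (fun n y => update y n (F n y)) n
  have hs : ∀ n, s (n + 1) = update (s n) n (F n (s n)) := fun n => rfl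
  have h1 : ∀ m n, m ≤ n → Agree m (s n) (s m) := by
    intro m n h
    induction h with
    | refl => exact Agree.refl _ _
    | @step n h ih => rw [hs]; exact ((agree_update n _ _).mono h).trans ih
  refine ⟨fun n => s (n + 1) n, fun n => ?_⟩
  show s (n + 1) n = _
  rw [hs, update_self]
  exact hF n _ _ (fun i hi => h1 (i + 1) n hi i (by omega))

end Pool.Agent.Lib.BorelDet
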