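import Pool.Agent.Lib.BorelDet.Basic

/-!
Unravelling an open set: the covering in which one player claims a set of positions and the
other accepts or challenges.
-/

set_option autoImplicit false

open Function

namespace Pool.Agent.Lib.BorelDet

namespace Unr

variable (G : Game) (k : ℕ) (A : Set G.Play)

abbrev Pos : Type := ℕ × G.Play

/-- moves of the covering game -/
def UM (n : ℕ) : Type :=
  {m : G.M n × Set (Pos G) × Option (Pos G) // (n ≠ k → m.2.1 = ∅) ∧ (n ≠ k + 1 → m.2.2 = none)}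

variable {G k}

def prj (x : ∀ n, UM G k n) : G.Play := fun n => (x n).1.1

def mk (x : G.Play) (X : Set (Pos G)) (c : Option (Pos G)) : ∀ n, UM G k n := fun n =>
  ⟨(x n, if n = k then X else ∅, if n = k + 1 then c else none),
    fun h => by simp [h], fun h => by simp [h]⟩

@[simp] theorem prj_mk (x : G.Play) (X : Set (Pos G)) (c : Option (Pos G)) :
    prj (mk (k := k) x X c) = x := rfl

theorem mk_X (x : G.Play) (X : Set (Pos G)) (c : Option (Pos G)) :
    (mk (k := k) x X c k).1.2.1 = X := by simp [mk]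

theorem mk_c (x : G.Play) (X : Set (Pos G)) (c : Option (Pos G)) :
    (mk (k := k) x X c (k + 1)).1.2.2 = c := by simp [mk]

theorem agree_mk {n : ℕ} {x x' : G.Play} {X X' : Set (Pos G)} {c c' : Option (Pos G)}
    (h : Agree n x x') (hX : k < n → X = X') (hc : k + 1 < n → c = c') :
    Agree n (mk (k := k) x X c) (mk x' X' c') := by
  intro i hi
  apply Subtype.ext
  simp only [mk, h i hi, Prod.mk.injEq, true_and]
  constructor
  · split_ifs with h1
    · exact hX (h1 ▸ hi)
    · rfl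
  · split_ifs with h1
    · exact hc (h1 ▸ hi)
    · rfl

theorem prj_agree {n : ℕ} {x y : ∀ n, UM G k n} (h : Agree n x y) : Agree n (prj x) (prj y) :=
  fun i hi => by simp only [prj, h i hi]

theorem prj_update (x : ∀ n, UM G k n) (n : ℕ) (a : UM G k n) :
    prj (update x n a) = update (prj x) n a.1.1 := by
  funext i
  by_cases h : i = n
  · subst h; simp [prj]
  · simp [prj, update_of_ne h]

theorem mk_eq {x : G.Play} {X : Set (Pos G)} {c : Option (Pos G)} {n : ℕ} {a : UM G k n}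
    (h1 : x n = a.1.1) (h2 : n = k → X = a.1.2.1) (h3 : n = k + 1 → c = a.1.2.2) :
    mk x X c n = a := by
  apply Subtype.ext
  simp only [mk]
  refine Prod.ext h1 (Prod.ext ?_ ?_)
  · by_cases h : n = k
    · simp only [h, if_true]; simpa [h] using h2 h
    · simp only [h, if_false]; exact (a.2.1 h).symm
  · by_cases h : n = k + 1
    · simp only [h, if_true]; simpa [h] using h3 h
    · simp only [h, if_false]; exact (a.2.2 h).symm

variable (k)

/-- unlabelled positions all of whose unlabelled extensions lie in `A` -/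
def Zp (n : ℕ) (x : G.Play) : Prop :=
  k + 2 ≤ n ∧ G.lab n x = none ∧ ∀ y, Unl y → Agree n x y → y ∈ A

variable {k A}

theorem Zp.congr {n : ℕ} {x y : G.Play} (h : Zp k A n x) (hxy : Agree n x y) : Zp k A n y :=
  ⟨h.1, by rw [← G.lab_na n x y hxy]; exact h.2.1, fun z hz hyz => h.2.2 z hz (hxy.trans hyz)⟩

def claimed (X : Set (Pos G)) (n : ℕ) (x : G.Play) : Prop := ∃ y, (n, y) ∈ X ∧ Agree n x y

variable (A)

def Chal (x : ∀ n, UM G k n) (q : Pos G) : Prop :=
  (x (k + 1)).1.2.2 = some q ∧ q ∈ (x k).1.2.1 ∧ Zp k A q.1 q.2 ∧ Agree (k + 2) (prj x) q.2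

def NewEv (n : ℕ) (x : ∀ n, UM G k n) (b : Bool) : Prop :=
  k + 1 ≤ n ∧ ((∃ q, Chal A x q ∧ n < q.1 ∧ prj x n ≠ q.2 n ∧ b = !turn n) ∨
    ((¬ ∃ q, Chal A x q) ∧ Zp k A (n + 1) (prj x) ∧
      (b = turn k ↔ claimed (x k).1.2.1 (n + 1) (prj x))))

variable {A}

theorem Chal.congr {x y : ∀ n, UM G k n} {q : Pos G} (h : Chal A x q) (hxy : Agree (k + 2) x y) :
    Chal A y q := by
  obtain ⟨h1, h2, h3, h4⟩ := h
  refine ⟨?_, ?_, h3, (prj_agree hxy).symm.trans h4⟩
  · rw [← hxy (k + 1) (by omega)]; exact h1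
  · rw [← hxy k (by omega)]; exact h2

theorem NewEv.congr {n : ℕ} {x y : ∀ n, UM G k n} {b : Bool} (h : NewEv A n x b)
    (hxy : Agree (n + 1) x y) : NewEv A n y b := by
  obtain ⟨h0, h⟩ := h
  have h2 : Agree (k + 2) x y := hxy.mono (by omega)
  refine ⟨h0, ?_⟩
  rcases h with ⟨q, h1, h3, h4, h5⟩ | ⟨h1, h3, h4⟩
  · refine Or.inl ⟨q, h1.congr h2, h3, ?_, h5⟩
    rw [← prj_agree hxy n (by omega)]; exact h4
  · refine Or.inr ⟨fun ⟨q, hq⟩ => h1 ⟨q, hq.congr h2.symm⟩, h3.congr (prj_agree hxy), ?_⟩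
    rw [h4, ← hxy k (by omega)]
    exact ⟨fun ⟨z, hz, hz'⟩ => ⟨z, hz, (prj_agree hxy).symm.trans hz'⟩,
      fun ⟨z, hz, hz'⟩ => ⟨z, hz, (prj_agree hxy).trans hz'⟩⟩

theorem NewEv.unique {n : ℕ} {x : ∀ n, UM G k n} {b c : Bool} (h : NewEv A n x b)
    (h' : NewEv A n x c) : b = c := by
  rcases h.2 with ⟨q, h1, -, -, h5⟩ | ⟨h1, -, h4⟩
  · rcases h'.2 with ⟨q', -, -, -, h5'⟩ | ⟨h1', -, -⟩
    · rw [h5, h5']
    · exact absurd ⟨q, h1⟩ h1'
  · rcases h'.2 with ⟨q', h1', -, -, -⟩ | ⟨-, -, h4'⟩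
    · exact absurd ⟨q', h1'⟩ h1
    · rw [← h4'] at h4
      cases b <;> cases c <;> cases ht : turn k <;> simp_all

variable (A)

open Classical in
noncomputable def new (n : ℕ) (x : ∀ n, UM G k n) : Option Bool :=
  if NewEv A n x true then some true else if NewEv A n x false then some false else none

noncomputable def ulab : ℕ → (∀ n, UM G k n) → Option Bool
  | 0, x => G.lab 0 (prj x)
  | n + 1, x => (ulab n x).or ((new A n x).or (G.lab (n + 1) (prj x)))

variable {A}

theorem new_eq_some {n : ℕ} {x : ∀ n, UM G k n} {b : Bool} :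
    new A n x = some b ↔ NewEv A n x b := by
  unfold new
  split_ifs with h1 h2
  · constructor
    · intro h; cases h; exact h1
    · intro h; rw [h1.unique h]
  · constructor
    · intro h; cases h; exact h2
    · intro h; rw [h2.unique h]
  · constructor
    · intro h; cases h
    · intro h; cases b <;> contradiction

theorem new_eq_none {n : ℕ} {x : ∀ n, UM G k n} :
    new A n x = none ↔ ∀ b, ¬ NewEv A n x b := by
  constructor
  · intro h b hb
    rw [new_eq_some.2 hb] at h; cases h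
  · intro h
    cases hn : new A n x with
    | none => rfl
    | some b => exact absurd (new_eq_some.1 hn) (h b)

theorem new_na {n : ℕ} {x y : ∀ n, UM G k n} (h : Agree (n + 1) x y) :
    new A n x = new A n y := by
  cases hn : new A n x with
  | none =>
    exact (new_eq_none.2 fun b hb => new_eq_none.1 hn b (hb.congr h.symm)).symm
  | some b => exact (new_eq_some.2 ((new_eq_some.1 hn).congr h)).symm

theorem ulab_na (n : ℕ) (x y : ∀ n, UM G k n) (h : Agree n x y) : ulab A n x = ulab A n y := by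
  induction n with
  | zero => exact G.lab_na 0 _ _ (prj_agree h)
  | succ n ih =>
    simp only [ulab]
    rw [ih (h.mono (by omega)), new_na h, G.lab_na _ _ _ (prj_agree h)]

theorem ulab_eq_none {n : ℕ} {x : ∀ n, UM G k n} :
    ulab A n x = none ↔ G.lab n (prj x) = none ∧ ∀ m, m < n → ∀ b, ¬ NewEv A m x b := by
  induction n with
  | zero => simp [ulab]
  | succ n ih =>
    simp only [ulab, Option.or_eq_none_iff, ih, new_eq_none]
    constructor
    · rintro ⟨⟨-, h2⟩, h3, h4⟩
      refine ⟨h4, fun m hm => ?_⟩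
      rcases Nat.lt_succ_iff_lt_or_eq.1 hm with hm | rfl
      · exact h2 m hm
      · exact h3
    · rintro ⟨h1, h2⟩
      exact ⟨⟨G.lab_none_mono (by omega) h1, fun m hm => h2 m (by omega)⟩, h2 n (by omega), h1⟩

theorem ulab_low {n : ℕ} (hn : n ≤ k) (x : ∀ n, UM G k n) : ulab A n x = G.lab n (prj x) := by
  induction n with
  | zero => rfl
  | succ n ih =>
    simp only [ulab]
    have h1 : new A n x = none := new_eq_none.2 fun b hb => by have := hb.1; omega
    rw [ih (by omega), h1]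
    cases h : G.lab n (prj x) with
    | none => simp
    | some b => simp [G.lab_sticky _ _ _ h]

variable (k A)

/-- the covering game -/
noncomputable def game : Game where
  M := UM G k
  dflt := mk G.dflt ∅ none
  lab := ulab A
  lab_na := ulab_na
  lab_sticky n x b h := by simp [ulab, h]

variable {k A}

/-- no first event in favour of `o` is new -/
def Genuine (o : Bool) (x : ∀ n, UM G k n) : Prop :=
  ∀ m, ulab A m x = none → ¬ NewEv A m x o

theorem Genuine.lab {o : Bool} {x : ∀ n, UM G k n} (h : Genuine (A := A) o x) (n : ℕ)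
    (hn : ulab A n x = some o) : G.lab n (prj x) = some o := by
  induction n with
  | zero => exact hn
  | succ n ih =>
    simp only [ulab] at hn
    cases h1 : ulab A n x with
    | some b =>
      rw [h1] at hn
      simp only [Option.some_or, Option.some.injEq] at hn
      exact G.lab_sticky _ _ _ (ih (hn ▸ h1))
    | none =>
      rw [h1] at hn
      cases h2 : new A n x with
      | some b =>
        rw [h2] at hn
        simp only [Option.none_or, Option.some_or, Option.some.injEq] at hn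
        exact absurd (new_eq_some.1 (hn ▸ h2)) (h n h1)
      | none => rw [h2] at hn; simpa using hn

theorem ulab_loss {o : Bool} {x : ∀ n, UM G k n} (h : Genuine (A := A) o x) {n : ℕ}
    (ht : turn n = o) (a : UM G k n)
    (hl : G.lab (n + 1) (update (prj x) n a.1.1) = some (!o)) :
    ulab A (n + 1) (update x n a) = some (!o) := by
  simp only [ulab]
  rw [ulab_na n _ x (agree_update n x a), prj_update, hl]
  cases h1 : ulab A n x with
  | some b =>
    by_cases hb : b = o
    · have h2 := h.lab n (hb ▸ h1)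
      rw [← G.lab_na n _ _ (agree_update n (prj x) a.1.1)] at h2
      have := G.lab_unique h2 hl
      cases o <;> simp at this
    · cases b <;> cases o <;> simp_all
  | none =>
    cases h2 : new A n (update x n a) with
    | none => simp
    | some b =>
      rcases (new_eq_some.1 h2).2 with ⟨q, -, -, -, h5⟩ | ⟨-, h3, -⟩
      · simp [h5, ht]
      · have := h3.2.1
        rw [prj_update, hl] at this; cases this

theorem consAt_of {o : Bool} {σ : Strat (game k A)} {x : G.Play} {X : Set (Pos G)}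
    {c : Option (Pos G)} (hg : Genuine (A := A) o (mk (k := k) x X c)) {n : ℕ}
    {l : ∀ n, UM G k n} (hl : Agree n l (mk x X c))
    (hx : turn n = o → x n = (σ.mv n l).1.1 ∨
      G.lab (n + 1) (update x n (σ.mv n l).1.1) = some (!o))
    (h1 : turn n = o → n = k → X = (σ.mv n (mk x X c)).1.2.1)
    (h2 : turn n = o → n = k + 1 → x n = (σ.mv n (mk x X c)).1.1 →
      c = (σ.mv n (mk x X c)).1.2.2) :
    ConsAt (G := game k A) o σ (mk x X c) n := by
  intro ht
  rw [σ.na n l _ hl] at hx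
  rcases hx ht with h3 | h3
  · exact Or.inl (mk_eq h3 (h1 ht) (fun h => h2 ht h h3))
  · exact Or.inr (ulab_loss hg ht _ h3)

theorem chal_mk {x : G.Play} {X : Set (Pos G)} {q : Pos G} (hq : q ∈ X) (hZ : Zp k A q.1 x)
    (hx : Agree q.1 x q.2) : Chal A (mk (k := k) x X (some q)) q :=
  ⟨mk_c _ _ _, by rw [mk_X]; exact hq, hZ.congr hx, hx.mono hZ.1⟩

theorem not_newEv_chal {x : ∀ n, UM G k n} {q : Pos G} (hq : Chal A x q) {m : ℕ}
    (hx : m < q.1 → prj x m = q.2 m) (b : Bool) : ¬ NewEv A m x b := by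
  rintro ⟨-, ⟨q', h1, h2, h3, -⟩ | ⟨h1, -, -⟩⟩
  · have : q' = q := Option.some.inj (h1.1.symm.trans hq.1)
    subst this
    exact h3 (hx h2)
  · exact h1 ⟨q, hq⟩

theorem genuine_chal {o : Bool} {x : G.Play} {X : Set (Pos G)} {q : Pos G} (hq : q ∈ X)
    (hZ : Zp k A q.1 x) (hx : Agree q.1 x q.2) :
    Genuine (A := A) o (mk (k := k) x X (some q)) :=
  fun m _ => not_newEv_chal (chal_mk hq hZ hx) (fun hm => hx m hm) o

theorem consAt_forced {o : Bool} {σ : Strat (game k A)} {x : G.Play} {X : Set (Pos G)}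
    {q : Pos G} (hq : q ∈ X) (hZ : Zp k A q.1 x) (hx : Agree q.1 x q.2) {n : ℕ}
    (hn : k + 2 ≤ n) (hn' : n < q.1) :
    ConsAt (G := game k A) o σ (mk x X (some q)) n := by
  intro ht
  by_cases h1 : x n = (σ.mv n (mk x X (some q))).1.1
  · exact Or.inl (mk_eq h1 (fun h => by omega) (fun h => by omega))
  · right
    have hc := chal_mk hq hZ hx
    have h2 : ulab A n (mk (k := k) x X (some q)) = none :=
      ulab_eq_none.2 ⟨G.lab_none_mono hn'.le hZ.2.1,
        fun m _ b => not_newEv_chal hc (fun hm => hx m hm) b⟩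
    have h3 : NewEv A n (update (mk (k := k) x X (some q)) n (σ.mv n (mk x X (some q)))) (!o) := by
      refine ⟨by omega, Or.inl ⟨q, hc.congr ((agree_update n _ _).symm.mono hn), hn', ?_, by rw [ht]⟩⟩
      rw [prj_update, update_self, ← hx n hn']
      exact fun h => h1 h.symm
    have h4 : ∀ a : UM G k n, NewEv A n (update (mk (k := k) x X (some q)) n a) (!o) →
        ulab A (n + 1) (update (mk (k := k) x X (some q)) n a) = some (!o) := by
      intro a ha
      simp only [ulab]
      rw [ulab_na n _ _ (agree_update n _ _), h2, new_eq_some.2 ha]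
      simp
    exact h4 _ h3

/-- in accept mode a new first event happens at the first level of `Zp` -/
theorem first_of_accept {x : ∀ n, UM G k n} (hx : ¬ ∃ q, Chal A x q) {m : ℕ}
    (hm : ulab A m x = none) (j : ℕ) (hj : j < m + 1) : ¬ Zp k A j (prj x) := by
  intro hZ
  have h1 := hZ.1
  obtain ⟨i, rfl⟩ : ∃ i, j = i + 1 := ⟨j - 1, by omega⟩
  by_cases hc : claimed (x k).1.2.1 (i + 1) (prj x)
  · exact (ulab_eq_none.1 hm).2 i (by omega) (turn k)
      ⟨by omega, Or.inr ⟨hx, hZ, by simp [hc]⟩⟩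
  · exact (ulab_eq_none.1 hm).2 i (by omega) (!turn k)
      ⟨by omega, Or.inr ⟨hx, hZ, by simp [hc]⟩⟩

/-! ### the strategy of the claimer -/

def XX (σ : Strat (game k A)) (x : G.Play) : Set (Pos G) := (σ.mv k (mk x ∅ none)).1.2.1

def RC (σ : Strat (game k A)) (x : G.Play) (q : Pos G) : Prop :=
  Zp k A q.1 x ∧ (∀ m, m < q.1 → ¬ Zp k A m x) ∧ q ∈ XX σ x ∧ Agree q.1 x q.2

open Classical in
noncomputable def cC (σ : Strat (game k A)) (n : ℕ) (x : G.Play) : Option (Pos G) :=
  if ∃ q, RC σ x q ∧ q.1 ≤ n then some (@epsilon _ ⟨(0, G.dflt)⟩ (RC σ x)) else none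

theorem first_unique {x : G.Play} {a b : ℕ} (ha : Zp k A a x) (ha' : ∀ m, m < a → ¬ Zp k A m x)
    (hb : Zp k A b x) (hb' : ∀ m, m < b → ¬ Zp k A m x) : a = b := by
  rcases lt_trichotomy a b with h | h | h
  · exact absurd ha (hb' a h)
  · exact h
  · exact absurd hb (ha' b h)

theorem XX_congr {σ τ : Strat (game k A)} {x y : G.Play} (h : σ.mv k = τ.mv k)
    (hxy : Agree k x y) : XX σ x = XX τ y := by
  unfold XX
  rw [h, τ.na k _ _ (agree_mk hxy (fun h => rfl) (fun h => rfl))]

theorem RC.congr {σ τ : Strat (game k A)} {x y : G.Play} {q : Pos G} (hq : RC σ x q)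
    (h : σ.mv k = τ.mv k) (hxy : Agree q.1 x y) : RC τ y q := by
  obtain ⟨h1, h2, h3, h4⟩ := hq
  have := h1.1
  refine ⟨h1.congr hxy, fun m hm hZ => h2 m hm (hZ.congr (hxy.symm.mono hm.le)), ?_,
    hxy.symm.trans h4⟩
  rw [← XX_congr h (hxy.mono (by omega))]; exact h3

theorem cC_congr {σ τ : Strat (game k A)} {x y : G.Play} {n : ℕ} (h : σ.mv k = τ.mv k)
    (hxy : Agree n x y) : cC σ n x = cC τ n y := by
  unfold cC
  by_cases h1 : ∃ q, RC σ x q ∧ q.1 ≤ n
  · obtain ⟨q, hq, hn⟩ := h1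
    have hq' : RC τ y q := hq.congr h (hxy.mono hn)
    have h2 : RC σ x = RC τ y := by
      funext p
      apply propext
      constructor
      · intro hp
        have : p.1 = q.1 := first_unique hp.1 hp.2.1 hq.1 hq.2.1
        exact hp.congr h (hxy.mono (this ▸ hn))
      · intro hp
        have : p.1 = q.1 := first_unique hp.1 hp.2.1 hq'.1 hq'.2.1
        exact hp.congr h.symm (hxy.symm.mono (this ▸ hn))
    rw [h2]
  · have h2 : ¬ ∃ q, RC τ y q ∧ q.1 ≤ n := fun ⟨q, hq, hn⟩ =>
      h1 ⟨q, hq.congr h.symm (hxy.symm.mono hn), hn⟩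
    rw [if_neg h1, if_neg h2]

noncomputable def phiC (σ : Strat (game k A)) : Strat G where
  mv n x := (σ.mv n (mk x (XX σ x) (cC σ n x))).1.1
  na n x y h := by
    rw [σ.na n _ _ (agree_mk h (fun hk => XX_congr rfl (h.mono hk.le))
      (fun _ => cC_congr rfl h))]

theorem phiC_loc (n : ℕ) (σ τ : Strat (game k A)) (h : SAgree n σ τ) :
    SAgree n (phiC σ) (phiC τ) := by
  intro m hm
  funext x
  simp only [phiC]
  rw [h m hm, τ.na m _ _ (agree_mk (Agree.refl m x)
    (fun hk => XX_congr (h k (by omega)) (Agree.refl _ _))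
    (fun hk => cC_congr (h k (by omega)) (Agree.refl _ _)))]

theorem agree_mk_prj {n : ℕ} (hn : n ≤ k) (x : ∀ n, UM G k n) (X : Set (Pos G))
    (c : Option (Pos G)) : Agree n (mk (prj x) X c) x :=
  fun i hi => mk_eq rfl (fun h => by omega) (fun h => by omega)

theorem liftC (σ : Strat (game k A)) (x : G.Play) (hx : Cons (turn k) (phiC σ) x) :
    ∃ y : (game k A).Play, Cons (turn k) σ y ∧ prj y = x ∧
      ∀ n, ulab A n y = some (turn k) → G.lab n x = some (turn k) := by
  classical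
  have hXX : ∀ c : Option (Pos G), XX σ x = (σ.mv k (mk x (XX σ x) c)).1.2.1 := fun c => by
    rw [σ.na k (mk x (XX σ x) c) (mk x ∅ none)
      (agree_mk (Agree.refl _ _) (fun h => by omega) (fun h => by omega))]
    rfl
  have hturn : turn (k + 1) ≠ turn k := by rw [turn_succ]; simp
  by_cases h : ∃ q, RC σ x q
  · let q := @Classical.epsilon _ ⟨(0, G.dflt)⟩ (RC σ x)
    have hq : RC σ x q := Classical.epsilon_spec h
    have hg : Genuine (A := A) (turn k) (mk (k := k) x (XX σ x) (some q)) :=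
      genuine_chal hq.2.2.1 hq.1 hq.2.2.2
    refine ⟨mk x (XX σ x) (some q), fun n => ?_, rfl, fun n hn => hg.lab n hn⟩
    by_cases hn : k + 2 ≤ n ∧ n < q.1
    · exact consAt_forced hq.2.2.1 hq.1 hq.2.2.2 hn.1 hn.2
    · refine consAt_of hg (l := mk x (XX σ x) (cC σ n x)) ?_ (hx n) ?_ ?_
      · refine agree_mk (Agree.refl _ _) (fun _ => rfl) (fun hk => ?_)
        unfold cC
        rw [if_pos ⟨q, hq, by omega⟩]
      · rintro - rfl; exact hXX _
      · rintro ht rfl; exact absurd ht hturn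
  · have hna : ¬ ∃ q, Chal A (mk (k := k) x (XX σ x) none) q := by
      rintro ⟨q, hq⟩
      have := hq.1
      rw [mk_c] at this; cases this
    have hg : Genuine (A := A) (turn k) (mk (k := k) x (XX σ x) none) := by
      rintro m hm ⟨-, ⟨q, h1, -⟩ | ⟨-, h2, h3⟩⟩
      · exact hna ⟨q, h1⟩
      · obtain ⟨y, hy, hy'⟩ := h3.1 rfl
        rw [mk_X] at hy
        exact h ⟨(m + 1, y), h2, first_of_accept hna hm, hy, hy'⟩
    refine ⟨mk x (XX σ x) none, fun n => ?_, rfl, fun n hn => hg.lab n hn⟩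
    refine consAt_of hg (l := mk x (XX σ x) (cC σ n x)) ?_ (hx n) ?_ ?_
    · refine agree_mk (Agree.refl _ _) (fun _ => rfl) (fun hk => ?_)
      unfold cC
      rw [if_neg (fun ⟨q, hq, _⟩ => h ⟨q, hq⟩)]
    · rintro - rfl; exact hXX _
    · rintro ht rfl; exact absurd ht hturn

/-! ### the strategy of the checker -/

def resp (τ : Strat (game k A)) (x : G.Play) (X : Set (Pos G)) : UM G k (k + 1) :=
  τ.mv (k + 1) (mk x X none)

def X0 (τ : Strat (game k A)) (x : G.Play) : Set (Pos G) :=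
  {q | ¬ ∃ X, (resp τ x X).1.2.2 = some q ∧ q ∈ X ∧ Zp k A q.1 q.2 ∧ Agree (k + 1) x q.2 ∧
    q.2 (k + 1) = (resp τ x X).1.1}

def RD (τ : Strat (game k A)) (x : G.Play) (p : Set (Pos G) × Pos G) : Prop :=
  Zp k A p.2.1 x ∧ (∀ m, m < p.2.1 → ¬ Zp k A m x) ∧ Agree p.2.1 x p.2.2 ∧
    (resp τ x p.1).1.2.2 = some p.2 ∧ p.2 ∈ p.1 ∧ x (k + 1) = (resp τ x p.1).1.1

open Classical in
noncomputable def c0 (τ : Strat (game k A)) (x : G.Play) : Option (Pos G) :=
  if x (k + 1) = (resp τ x (X0 τ x)).1.1 then (resp τ x (X0 τ x)).1.2.2 else none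

open Classical in
noncomputable def eD (τ : Strat (game k A)) (n : ℕ) (x : G.Play) :
    Set (Pos G) × Option (Pos G) :=
  if ∃ p, RD τ x p ∧ p.2.1 ≤ n then
    ((@epsilon _ ⟨(∅, 0, G.dflt)⟩ (RD τ x)).1, some (@epsilon _ ⟨(∅, 0, G.dflt)⟩ (RD τ x)).2)
  else (X0 τ x, c0 τ x)

theorem resp_congr {σ τ : Strat (game k A)} {x y : G.Play} (h : σ.mv (k + 1) = τ.mv (k + 1))
    (hxy : Agree (k + 1) x y) : resp σ x = resp τ y := by
  funext X
  unfold resp
  rw [h, τ.na (k + 1) _ _ (agree_mk hxy (fun _ => rfl) (fun _ => rfl))]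

theorem X0_congr {σ τ : Strat (game k A)} {x y : G.Play} (h : σ.mv (k + 1) = τ.mv (k + 1))
    (hxy : Agree (k + 1) x y) : X0 σ x = X0 τ y := by
  unfold X0
  rw [resp_congr h hxy]
  ext q
  simp only [Set.mem_ofPred_eq]
  constructor
  · rintro h1 ⟨X, h2, h3, h4, h5, h6⟩
    exact h1 ⟨X, h2, h3, h4, hxy.trans h5, h6⟩
  · rintro h1 ⟨X, h2, h3, h4, h5, h6⟩
    exact h1 ⟨X, h2, h3, h4, hxy.symm.trans h5, h6⟩

theorem c0_congr {σ τ : Strat (game k A)} {x y : G.Play} (h : σ.mv (k + 1) = τ.mv (k + 1))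
    (hxy : Agree (k + 2) x y) : c0 σ x = c0 τ y := by
  unfold c0
  rw [X0_congr h (hxy.mono (by omega)), resp_congr h (hxy.mono (by omega)),
    hxy (k + 1) (by omega)]

theorem RD.congr {σ τ : Strat (game k A)} {x y : G.Play} {p : Set (Pos G) × Pos G}
    (hp : RD σ x p) (h : σ.mv (k + 1) = τ.mv (k + 1)) (hxy : Agree p.2.1 x y) : RD τ y p := by
  obtain ⟨h1, h2, h3, h4, h5, h6⟩ := hp
  have := h1.1
  rw [resp_congr h (hxy.mono (by omega))] at h4 h6
  refine ⟨h1.congr hxy, fun m hm hZ => h2 m hm (hZ.congr (hxy.symm.mono hm.le)),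
    hxy.symm.trans h3, h4, h5, ?_⟩
  rw [← hxy (k + 1) (by omega)]; exact h6

theorem eD_cases {σ τ : Strat (game k A)} {x y : G.Play} {n : ℕ}
    (h : σ.mv (k + 1) = τ.mv (k + 1)) (hxy : Agree n x y) :
    eD σ n x = eD τ n y ∨ (eD σ n x = (X0 σ x, c0 σ x) ∧ eD τ n y = (X0 τ y, c0 τ y)) := by
  unfold eD
  by_cases h1 : ∃ p, RD σ x p ∧ p.2.1 ≤ n
  · obtain ⟨q, hq, hn⟩ := h1
    have hq' : RD τ y q := hq.congr h (hxy.mono hn)
    have h2 : RD σ x = RD τ y := by
      funext p
      apply propext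
      constructor
      · intro hp
        have : p.2.1 = q.2.1 := first_unique hp.1 hp.2.1 hq.1 hq.2.1
        exact hp.congr h (hxy.mono (this ▸ hn))
      · intro hp
        have : p.2.1 = q.2.1 := first_unique hp.1 hp.2.1 hq'.1 hq'.2.1
        exact hp.congr h.symm (hxy.symm.mono (this ▸ hn))
    left
    rw [if_pos ⟨q, hq, hn⟩, if_pos ⟨q, hq', hn⟩, h2]
  · have h2 : ¬ ∃ p, RD τ y p ∧ p.2.1 ≤ n := fun ⟨q, hq, hn⟩ =>
      h1 ⟨q, hq.congr h.symm (hxy.symm.mono hn), hn⟩
    right
    rw [if_neg h1, if_neg h2]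
    exact ⟨rfl, rfl⟩

theorem agree_eD {σ τ : Strat (game k A)} {x y : G.Play} {n : ℕ}
    (h : k < n → σ.mv (k + 1) = τ.mv (k + 1)) (hxy : Agree n x y) :
    Agree n (mk (k := k) x (eD σ n x).1 (eD σ n x).2) (mk y (eD τ n y).1 (eD τ n y).2) := by
  refine agree_mk hxy (fun hk => ?_) (fun hk => ?_)
  · rcases eD_cases (h hk) hxy with h1 | ⟨h1, h2⟩
    · rw [h1]
    · rw [h1, h2]; exact X0_congr (h hk) (hxy.mono hk)
  · rcases eD_cases (h (by omega)) hxy with h1 | ⟨h1, h2⟩
    · rw [h1]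
    · rw [h1, h2]; exact c0_congr (h (by omega)) (hxy.mono hk)

noncomputable def phiD (τ : Strat (game k A)) : Strat G where
  mv n x := (τ.mv n (mk x (eD τ n x).1 (eD τ n x).2)).1.1
  na n x y h := by rw [τ.na n _ _ (agree_eD (fun _ => rfl) h)]

theorem phiD_loc (n : ℕ) (σ τ : Strat (game k A)) (h : SAgree n σ τ) :
    SAgree n (phiD σ) (phiD τ) := by
  intro m hm
  funext x
  simp only [phiD]
  rw [h m hm, τ.na m _ _ (agree_eD (fun hk => h (k + 1) (by omega)) (Agree.refl m x))]

theorem liftD (τ : Strat (game k A)) (x : G.Play) (hx : Cons (!turn k) (phiD τ) x) :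
    ∃ y : (game k A).Play, Cons (!turn k) τ y ∧ prj y = x ∧
      ∀ n, ulab A n y = some (!turn k) → G.lab n x = some (!turn k) := by
  classical
  have hresp : ∀ (X : Set (Pos G)) (c : Option (Pos G)),
      τ.mv (k + 1) (mk x X c) = resp τ x X := fun X c =>
    τ.na (k + 1) _ _ (agree_mk (Agree.refl _ _) (fun _ => rfl) (fun h => by omega))
  have hturn : turn k ≠ !turn k := by simp
  by_cases h : ∃ p, RD τ x p
  · let p := @Classical.epsilon _ ⟨(∅, 0, G.dflt)⟩ (RD τ x)
    have hp : RD τ x p := Classical.epsilon_spec h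
    obtain ⟨h1, h2, h3, h4, h5, h6⟩ := id hp
    have hg : Genuine (A := A) (!turn k) (mk (k := k) x p.1 (some p.2)) := genuine_chal h5 h1 h3
    refine ⟨mk x p.1 (some p.2), fun n => ?_, rfl, fun n hn => hg.lab n hn⟩
    by_cases hn : k + 2 ≤ n ∧ n < p.2.1
    · exact consAt_forced h5 h1 h3 hn.1 hn.2
    · by_cases hn' : n = k + 1
      · subst hn'
        intro _
        left
        rw [hresp]
        exact mk_eq h6 (fun h => by omega) (fun _ => h4.symm)
      · refine consAt_of hg (l := mk x (eD τ n x).1 (eD τ n x).2) ?_ (hx n) ?_ ?_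
        · refine agree_mk (Agree.refl _ _) (fun hk => ?_) (fun hk => ?_)
          · unfold eD
            rw [if_pos ⟨p, hp, by omega⟩]
          · unfold eD
            rw [if_pos ⟨p, hp, by omega⟩]
        · rintro ht rfl; exact absurd ht hturn
        · rintro - h; exact absurd h hn'
  · have hna : ¬ ∃ q, Chal A (mk (k := k) x (X0 τ x) (c0 τ x)) q := by
      rintro ⟨q, h1, h2, h3, h4⟩
      rw [mk_c] at h1
      rw [mk_X] at h2
      unfold c0 at h1
      split_ifs at h1 with h5
      exact h2 ⟨X0 τ x, h1, h2, h3, h4.mono (by omega), by rw [← h5]; exact (h4 (k + 1) (by omega)).symm⟩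
    have hg : Genuine (A := A) (!turn k) (mk (k := k) x (X0 τ x) (c0 τ x)) := by
      rintro m hm ⟨-, ⟨q, h1, -⟩ | ⟨-, h2, h3⟩⟩
      · exact hna ⟨q, h1⟩
      · have h4 : ¬ claimed (X0 τ x) (m + 1) x := by
          intro hc
          rw [mk_X] at h3
          exact hturn (h3.2 hc).symm
        apply h4
        refine ⟨x, ?_, Agree.refl _ _⟩
        rintro ⟨X, h5, h6, -, -, h7⟩
        exact h ⟨(X, m + 1, x), h2, first_of_accept hna hm, Agree.refl _ _, h5, h6, h7⟩
    refine ⟨mk x (X0 τ x) (c0 τ x), fun n => ?_, rfl, fun n hn => hg.lab n hn⟩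
    refine consAt_of hg (l := mk x (eD τ n x).1 (eD τ n x).2) ?_ (hx n) ?_ ?_
    · unfold eD
      rw [if_neg (fun ⟨p, hp, _⟩ => h ⟨p, hp⟩)]
      exact Agree.refl _ _
    · rintro ht rfl; exact absurd ht hturn
    · rintro - rfl h5
      rw [hresp] at h5 ⊢
      unfold c0
      rw [if_pos h5]

variable (k A)

noncomputable def cover : Cover k (game k A) G where
  pr n a := a.1.1
  bij n hn := by
    constructor
    · intro a b hab
      apply Subtype.ext
      refine Prod.ext hab (Prod.ext ?_ ?_)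
      · rw [a.2.1 (by omega), b.2.1 (by omega)]
      · rw [a.2.2 (by omega), b.2.2 (by omega)]
    · intro a
      exact ⟨⟨(a, ∅, none), fun _ => rfl, fun _ => rfl⟩, rfl⟩
  lab_eq n hn x := ulab_low hn x
  lab_none n x h := (ulab_eq_none.1 h).1
  phi b σ := if b = turn k then phiC σ else phiD σ
  phi_loc b n σ τ h := by
    split_ifs
    · exact phiC_loc n σ τ h
    · exact phiD_loc n σ τ h
  phi_low b σ n hn x := by
    split_ifs
    · exact congrArg (fun a : UM G k n => a.1.1) (σ.na n _ _ (agree_mk_prj hn.le x _ _))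
    · exact congrArg (fun a : UM G k n => a.1.1) (σ.na n _ _ (agree_mk_prj hn.le x _ _))
  lift b σ x hx := by
    split_ifs at hx with hb
    · subst hb; exact liftC σ x hx
    · have : b = !turn k := by cases b <;> cases h : turn k <;> simp_all
      subst this; exact liftD σ x hx

variable {k A}

theorem mem_iff_chal (hA : OpenU G A) {x : (game k A).Play} (hx : Unl x) :
    prj x ∈ A ↔ ∃ q, Chal A x q := by
  have hu : Unl (prj x) := (cover k A).unl hx
  have hne : ∀ m b, ¬ NewEv A m x b := fun m => (ulab_eq_none.1 (hx (m + 1))).2 m (by omega)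
  constructor
  · intro h
    by_contra hc
    obtain ⟨n, hn⟩ := hA _ hu h
    exact first_of_accept hc (hx (n + k + 2)) (n + k + 2) (by omega)
      ⟨by omega, hu _, fun y hy hxy => hn y hy (hxy.mono (by omega))⟩
  · rintro ⟨q, hq⟩
    have h1 : Agree q.1 (prj x) q.2 := by
      intro i hi
      by_cases h2 : i < k + 2
      · exact hq.2.2.2 i h2
      · by_contra h3
        exact hne i _ ⟨by omega, Or.inl ⟨q, hq, hi, h3, rfl⟩⟩
    exact hq.2.2.1.2.2 _ hu h1.symm

theorem decidedAt (hA : OpenU G A) :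
    DecidedAt (game k A) ((cover k A).proj ⁻¹' A) (k + 2) := by
  intro x y hx hy hxy h
  obtain ⟨q, hq⟩ := (mem_iff_chal hA hx).1 h
  exact (mem_iff_chal hA hy).2 ⟨q, hq.congr hxy⟩

end Unr

theorem exists_cover_decided (G : Game) (k : ℕ) (A : Set G.Play) (hA : OpenU G A) :
    ∃ (H : Game) (c : Cover k H G), DecidedAt H (c.proj ⁻¹' A) (k + 2) :=
  ⟨Unr.game k A, Unr.cover k A, Unr.decidedAt hA⟩

end Pool.Agent.Lib.BorelDet
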